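import Pool.Agent.DSP.Main

set_option autoImplicit false

/-!
DSU-Core: the arithmetic of the uniqueness of the exceptional parameters of abelian difference sets
with multiplier -1.
-/

namespace Pool.Agent.DSU

/-- the arithmetical data of an exceptional parameter triple -/
structure Ex (p r t c a b x y : ℕ) : Prop where
  pr : p.Prime
  ne : p ≠ 2
  t1 : 1 ≤ t
  tr : 2 * t ≤ r
  big : 4 * p ^ (r - t) < 2 ^ c
  ab : a + b = p ^ t
  xy : x + y = 2 ^ (c - 1)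
  ax : a * x = b * y + 1
  axy : a * x + b * y = p ^ r

theorem Ex.c1 {p r t c a b x y : ℕ} (h : Ex p r t c a b x y) : 1 ≤ c := by
  by_contra hc
  have h1 : c = 0 := by omega
  have h2 := h.big
  rw [h1, pow_zero] at h2
  have h3 : 0 < p ^ (r - t) := pow_pos h.pr.pos _
  omega

theorem Ex.b1 {p r t c a b x y : ℕ} (h : Ex p r t c a b x y) : 1 ≤ b := by
  by_contra hb
  have h1 : b = 0 := by omega
  have h2 := h.ax
  rw [h1, zero_mul, zero_add] at h2
  have h3 : a = 1 := Nat.eq_one_of_mul_eq_one_right h2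
  have h4 := h.ab
  rw [h1, h3] at h4
  have h5 : 1 < p ^ t := Nat.one_lt_pow (by have := h.t1; omega) h.pr.one_lt
  omega

theorem Ex.a1 {p r t c a b x y : ℕ} (h : Ex p r t c a b x y) : 1 ≤ a := by
  by_contra ha
  have h1 : a = 0 := by omega
  have h2 := h.ax
  rw [h1, zero_mul] at h2
  omega

/-- the fundamental equation -/
theorem Ex.eq {p r t c a b x y : ℕ} (h : Ex p r t c a b x y) :
    (2 : ℤ) ^ c * (a * b) = (p : ℤ) ^ (r + t) + ((b : ℤ) - a) := by
  have h1 : (a : ℤ) * x = b * y + 1 := by exact_mod_cast h.ax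
  have h2 : (a : ℤ) * x + b * y = (p : ℤ) ^ r := by exact_mod_cast h.axy
  have h3 : (a : ℤ) + b = (p : ℤ) ^ t := by exact_mod_cast h.ab
  have h4 : (x : ℤ) + y = 2 ^ (c - 1) := by exact_mod_cast h.xy
  have h5 : (2 : ℤ) ^ c = 2 * (x + y) := by
    rw [h4, ← pow_succ']
    congr 1
    have := h.c1
    omega
  have h6 : 2 * ((a : ℤ) * x) = (p : ℤ) ^ r + 1 := by linarith
  have h7 : 2 * ((b : ℤ) * y) = (p : ℤ) ^ r - 1 := by linarith
  calc (2 : ℤ) ^ c * (a * b) = b * (2 * ((a : ℤ) * x)) + a * (2 * ((b : ℤ) * y)) := by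
        rw [h5]; ring
    _ = (p : ℤ) ^ r * ((a : ℤ) + b) + ((b : ℤ) - a) := by rw [h6, h7]; ring
    _ = (p : ℤ) ^ (r + t) + ((b : ℤ) - a) := by rw [h3, pow_add]

theorem Ex.diff_le {p r t c a b x y : ℕ} (h : Ex p r t c a b x y) :
    |(b : ℤ) - a| ≤ (p : ℤ) ^ t := by
  have h3 : (a : ℤ) + b = (p : ℤ) ^ t := by exact_mod_cast h.ab
  rw [abs_le]
  have h1 : (0 : ℤ) ≤ a := Int.natCast_nonneg a
  have h2 : (0 : ℤ) ≤ b := Int.natCast_nonneg b
  constructor <;> linarith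

/-- an integer which is divisible by `2 ^ c` and small is zero -/
private theorem zero_of_dvd {c : ℕ} {z w : ℤ} (h : (2 : ℤ) ^ c ∣ z) (hz : |z| ≤ w)
    (hw : w < 2 ^ c) : z = 0 :=
  Int.eq_zero_of_abs_lt_dvd h (lt_of_le_of_lt hz hw)

private theorem same_r_aux {p r t c a b x y t' c' a' b' x' y' : ℕ} (h : Ex p r t c a b x y)
    (h' : Ex p r t' c' a' b' x' y') (htt : t ≤ t') :
    t = t' ∧ c = c' ∧ a = a' ∧ b = b' := by
  obtain ⟨d, rfl⟩ := Nat.exists_eq_add_of_le htt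
  have e1 := h.eq
  have e2 := h'.eq
  have hp0 : (0 : ℤ) < p := by exact_mod_cast h.pr.pos
  have hpd : (0 : ℤ) < (p : ℤ) ^ d := pow_pos hp0 d
  -- the difference of the two equations
  have e3 : (2 : ℤ) ^ c * (a * b) * (p : ℤ) ^ d - (2 : ℤ) ^ c' * (a' * b') =
      (p : ℤ) ^ d * ((b : ℤ) - a) - ((b' : ℤ) - a') := by
    rw [e1, e2, ← add_assoc r t d, pow_add _ (r + t) d]
    ring
  have hdvd : (2 : ℤ) ^ (min c c') ∣ (p : ℤ) ^ d * ((b : ℤ) - a) - ((b' : ℤ) - a') := by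
    rw [← e3]
    refine dvd_sub ?_ ?_
    · exact (Dvd.dvd.mul_right (pow_dvd_pow _ (min_le_left _ _)) _).mul_right _
    · exact Dvd.dvd.mul_right (pow_dvd_pow _ (min_le_right _ _)) _
  have hsz : |(p : ℤ) ^ d * ((b : ℤ) - a) - ((b' : ℤ) - a')| ≤ 2 * (p : ℤ) ^ (t + d) := by
    refine (abs_sub _ _).trans ?_
    rw [abs_mul, abs_of_pos hpd]
    have h1 := mul_le_mul_of_nonneg_left h.diff_le hpd.le
    have h2 := h'.diff_le
    have h3 : (p : ℤ) ^ d * (p : ℤ) ^ t = (p : ℤ) ^ (t + d) := by rw [← pow_add, add_comm]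
    linarith
  have hmono : p ^ (t + d) ≤ p ^ (r - (t + d)) :=
    Nat.pow_le_pow_right h.pr.pos (by have := h'.tr; omega)
  have hmono2 : p ^ (r - (t + d)) ≤ p ^ (r - t) := Nat.pow_le_pow_right h.pr.pos (by omega)
  have hb1 : 4 * p ^ (t + d) < 2 ^ (min c c') := by
    have h1 := h.big
    have h2 := h'.big
    rcases min_choice c c' with hm | hm <;> rw [hm] <;> omega
  have hb2 : 2 * (p : ℤ) ^ (t + d) < 2 ^ (min c c') := by
    have h1 : (4 : ℤ) * (p : ℤ) ^ (t + d) < 2 ^ (min c c') := by exact_mod_cast hb1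
    have h2 : (0 : ℤ) < (p : ℤ) ^ (t + d) := pow_pos hp0 _
    linarith
  have hz := zero_of_dvd hdvd hsz hb2
  have s1 : (a : ℤ) + b = (p : ℤ) ^ t := by exact_mod_cast h.ab
  have s2 : (a' : ℤ) + b' = (p : ℤ) ^ (t + d) := by exact_mod_cast h'.ab
  have s3 : (a' : ℤ) + b' = (p : ℤ) ^ d * ((a : ℤ) + b) := by rw [s2, s1, ← pow_add, add_comm]
  have ha : (a' : ℤ) = (p : ℤ) ^ d * a := by linarith
  have hb : (b' : ℤ) = (p : ℤ) ^ d * b := by linarith
  have hax' : (a' : ℤ) * x' = b' * y' + 1 := by exact_mod_cast h'.ax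
  have hd1 : (p : ℤ) ^ d ∣ 1 := by
    refine ⟨a * x' - b * y', ?_⟩
    rw [ha, hb] at hax'
    linarith
  have hd : d = 0 := by
    by_contra hne
    have h1 : (p : ℤ) ^ d = 1 := Int.eq_one_of_dvd_one hpd.le hd1
    have h2 : p ^ d = 1 := by exact_mod_cast h1
    have h3 : 1 < p ^ d := Nat.one_lt_pow hne h.pr.one_lt
    omega
  subst hd
  rw [pow_zero, one_mul] at ha hb
  have ha2 : a = a' := by exact_mod_cast ha.symm
  have hb2' : b = b' := by exact_mod_cast hb.symm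
  subst ha2
  subst hb2'
  refine ⟨rfl, ?_, rfl, rfl⟩
  have h5 : (2 : ℤ) ^ c * ((a : ℤ) * b) = 2 ^ c' * ((a : ℤ) * b) := by
    rw [e1, e2, add_zero]
  have hab0 : ((a : ℤ) * b) ≠ 0 := by
    have h6 : (0 : ℤ) < a := by exact_mod_cast h.a1
    have h7 : (0 : ℤ) < b := by exact_mod_cast h.b1
    exact (mul_pos h6 h7).ne'
  have h6 := mul_right_cancel₀ hab0 h5
  have h7 : 2 ^ c = 2 ^ c' := by exact_mod_cast h6
  exact Nat.pow_right_injective le_rfl h7

/-- the order determines everything -/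
theorem same_r {p r t c a b x y t' c' a' b' x' y' : ℕ} (h : Ex p r t c a b x y)
    (h' : Ex p r t' c' a' b' x' y') : t = t' ∧ c = c' ∧ a = a' ∧ b = b' := by
  rcases le_total t t' with htt | htt
  · exact same_r_aux h h' htt
  · obtain ⟨h1, h2, h3, h4⟩ := same_r_aux h' h htt
    exact ⟨h1.symm, h2.symm, h3.symm, h4.symm⟩

/-- the order of the group determines everything -/
theorem same_v {p r t c a b x y r' t' a' b' x' y' : ℕ} (h : Ex p r t c a b x y)
    (h' : Ex p r' t' c a' b' x' y') (hS : r + t = r' + t') : r = r' ∧ t = t' ∧ a = a' ∧ b = b' := by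
  have e1 := h.eq
  have e2 := h'.eq
  have hp0 : (0 : ℤ) < p := by exact_mod_cast h.pr.pos
  have e3 : (2 : ℤ) ^ c * ((a : ℤ) * b - a' * b') = ((b : ℤ) - a) - ((b' : ℤ) - a') := by
    rw [mul_sub, e1, e2, hS]
    ring
  have hsz : |((b : ℤ) - a) - ((b' : ℤ) - a')| ≤ (p : ℤ) ^ t + (p : ℤ) ^ t' :=
    (abs_sub _ _).trans (add_le_add h.diff_le h'.diff_le)
  have hb1 : (p : ℤ) ^ t + (p : ℤ) ^ t' < 2 ^ c := by
    have h1 := h.big
    have h2 := h'.big
    have h3 : p ^ t ≤ p ^ (r - t) := Nat.pow_le_pow_right h.pr.pos (by have := h.tr; omega)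
    have h4 : p ^ t' ≤ p ^ (r' - t') := Nat.pow_le_pow_right h.pr.pos (by have := h'.tr; omega)
    have h5 : p ^ t + p ^ t' < 2 ^ c := by omega
    exact_mod_cast h5
  have hz := zero_of_dvd ⟨_, e3.symm⟩ hsz hb1
  have h2c : (2 : ℤ) ^ c ≠ 0 := pow_ne_zero _ (by norm_num)
  rw [hz] at e3
  have hab : (a : ℤ) * b = a' * b' := by
    rcases mul_eq_zero.1 e3 with h1 | h1
    · exact absurd h1 h2c
    · linarith
  have s1 : (a : ℤ) + b = (p : ℤ) ^ t := by exact_mod_cast h.ab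
  have s2 : (a' : ℤ) + b' = (p : ℤ) ^ t' := by exact_mod_cast h'.ab
  have hd : (b : ℤ) - a = b' - a' := by linarith
  have hsq : ((a : ℤ) + b) ^ 2 = ((a' : ℤ) + b') ^ 2 := by
    have h1 : ((a : ℤ) + b) ^ 2 = ((b : ℤ) - a) ^ 2 + 4 * (a * b) := by ring
    have h2 : ((a' : ℤ) + b') ^ 2 = ((b' : ℤ) - a') ^ 2 + 4 * (a' * b') := by ring
    rw [h1, h2, hd, hab]
  have h0 : (0 : ℤ) ≤ (a : ℤ) + b := by positivity
  have h0' : (0 : ℤ) ≤ (a' : ℤ) + b' := by positivity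
  have hs : (a : ℤ) + b = a' + b' := (sq_eq_sq₀ h0 h0').1 hsq
  have ha : (a : ℤ) = a' := by linarith
  have hb : (b : ℤ) = b' := by linarith
  have hpt : (p : ℤ) ^ t = (p : ℤ) ^ t' := by rw [← s1, ← s2, hs]
  have hpt' : p ^ t = p ^ t' := by exact_mod_cast hpt
  have ht : t = t' := Nat.pow_right_injective h.pr.two_le hpt'
  exact ⟨by omega, ht, by exact_mod_cast ha, by exact_mod_cast hb⟩

end Pool.Agent.DSU
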