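import Pool.Agent.DSU.Core

set_option autoImplicit false

/-!
DSU-Main: uniqueness of the exceptional parameters of abelian difference sets with multiplier -1.
-/

namespace Pool.Agent.DSU

open Finset

universe u

/-- the outcome of `DSP.main` for `v ≠ 4 n` -/
def Out (v k lam n : ℕ) : Prop :=
  (v, k, lam) = (4000, 775, 150) ∨ (v, k, lam) = (4000, 3225, 2600) ∨
    ∃ p r t c a b x y : ℕ, Ex p r t c a b x y ∧ n = p ^ (2 * r) ∧ v = 2 ^ c * p ^ (r + t) ∧
      (k = p ^ r * (2 ^ c * b + 1) ∨ v - k = p ^ r * (2 ^ c * b + 1)) ∧ 10 ^ 8 < n ∧ 8 ≤ r + t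

theorem out {G : Type u} [AddCommGroup G] [Fintype G] [DecidableEq G] (D : Finset G)
    (v k lam : ℕ) (hv : Fintype.card G = v) (hk : D.card = k)
    (hD : ∀ g : G, g ≠ 0 → ((D ×ˢ D).filter fun x => x.1 - x.2 = g).card = lam)
    (hneg : ∃ a : G, D.image (fun d => -d) = D.image (fun d => d + a))
    (h1 : 1 < k) (h2 : k < v - 1) (h4 : v ≠ 4 * (k - lam)) : Out v k lam (k - lam) := by
  rcases Pool.Agent.DSP.main D v k lam (k - lam) hv hk rfl hD hneg h1 h2 with
    h | h | h | ⟨p, r, t, c, a, b, x, y, hp, hp2, hn, hvc, hkb, hn8, _, hrt8, ht1, htr, hbig, _, _,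
      _, hab, hxy, hax, haxy, _⟩
  · exact absurd h.1 h4
  · exact Or.inl h
  · exact Or.inr (Or.inl h)
  · exact Or.inr (Or.inr ⟨p, r, t, c, a, b, x, y, ⟨hp, hp2, ht1, htr, hbig, hab, hxy, hax, haxy⟩,
      hn, hvc, hkb, hn8, hrt8⟩)

theorem out_pos {v k lam : ℕ} (h : Out v k lam (k - lam)) : 0 < k - lam := by
  rcases h with h | h | ⟨p, r, t, c, a, b, x, y, _, _, _, _, h8, _⟩
  · simp only [Prod.mk.injEq] at h
    omega
  · simp only [Prod.mk.injEq] at h
    omega
  · exact lt_trans (by norm_num) h8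

private theorem pow_prime_inj {p q m n : ℕ} (hp : p.Prime) (hq : q.Prime) (hm : m ≠ 0)
    (h : p ^ m = q ^ n) : p = q := by
  have h1 : p ∣ q ^ n := by
    rw [← h]
    exact dvd_pow_self p hm
  exact (Nat.prime_dvd_prime_iff_eq hp hq).1 (hp.dvd_of_dvd_pow h1)

private theorem two_part {p q c d m n : ℕ} (hp : p.Prime) (hp2 : p ≠ 2) (hq : q.Prime)
    (hq2 : q ≠ 2) (h : 2 ^ c * p ^ m = 2 ^ d * q ^ n) : c = d ∧ p ^ m = q ^ n := by
  have hc : ∀ {p : ℕ}, p.Prime → p ≠ 2 → ∀ m i : ℕ, Nat.Coprime (2 ^ i) (p ^ m) := fun hp hp2 m i =>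
    Nat.Coprime.pow _ _ ((Nat.coprime_primes Nat.prime_two hp).2 hp2.symm)
  have h1 : 2 ^ c ∣ 2 ^ d :=
    (hc hq hq2 n c).dvd_of_dvd_mul_right (h ▸ Dvd.intro _ rfl)
  have h2 : 2 ^ d ∣ 2 ^ c :=
    (hc hp hp2 m d).dvd_of_dvd_mul_right (h.symm ▸ Dvd.intro _ rfl)
  have h3 : 2 ^ c = 2 ^ d := Nat.dvd_antisymm h1 h2
  refine ⟨Nat.pow_right_injective le_rfl h3, ?_⟩
  rw [h3] at h
  exact Nat.eq_of_mul_eq_mul_left (pow_pos (by norm_num) d) h

private theorem big_v {p r t c a b x y : ℕ} (h : Ex p r t c a b x y) (h8 : 8 ≤ r + t) :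
    4000 < 2 ^ c * p ^ (r + t) := by
  have h1 : 3 ≤ p := by
    have h2 := h.pr.two_le
    have h3 := h.ne
    omega
  have h2 : 3 ^ 8 ≤ p ^ (r + t) :=
    (Nat.pow_le_pow_left h1 8).trans (Nat.pow_le_pow_right h.pr.pos h8)
  have h3 : 1 ≤ 2 ^ c := Nat.one_le_two_pow
  calc 4000 < 1 * 3 ^ 8 := by norm_num
    _ ≤ 2 ^ c * p ^ (r + t) := Nat.mul_le_mul h3 h2

/-- the conclusion -/
def Same (v k lam v' k' lam' : ℕ) : Prop :=
  v = v' ∧ ((k' = k ∧ lam' = lam) ∨ (k' + k = v ∧ lam' + 2 * k = v + lam))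

private theorem fin_case {v k lam k' lam' K : ℕ} (hk : k < v) (hk' : k' < v)
    (hl : 0 < k - lam) (hn : k - lam = k' - lam') (h : k = K ∨ v - k = K)
    (h' : k' = K ∨ v - k' = K) : Same v k lam v k' lam' := by
  refine ⟨rfl, ?_⟩
  rcases h with h | h <;> rcases h' with h' | h'
  · left; omega
  · right; omega
  · right; omega
  · left; omega

theorem uniq {v k lam v' k' lam' : ℕ} (hk : k < v) (hk' : k' < v') (hl : 0 < k - lam)
    (_ : 0 < k' - lam') (h : Out v k lam (k - lam)) (h' : Out v' k' lam' (k' - lam'))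
    (heq : k - lam = k' - lam' ∨ v = v') : Same v k lam v' k' lam' := by
  have key : ∀ {v k lam : ℕ}, (v, k, lam) = (4000, 775, 150) ∨ (v, k, lam) = (4000, 3225, 2600) →
      v = 4000 ∧ k - lam = 625 ∧ (k = 775 ∨ v - k = 775) := by
    intro v k lam h
    simp only [Prod.mk.injEq] at h
    omega
  have big : ∀ {p r t c a b x y v k lam v' k' lam' : ℕ}, Ex p r t c a b x y →
      v = 2 ^ c * p ^ (r + t) → 10 ^ 8 < k - lam → 8 ≤ r + t → v' = 4000 → k' - lam' = 625 →
      (k - lam = k' - lam' ∨ v = v') → False := by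
    intro p r t c a b x y v k lam v' k' lam' hE hv h8 hrt hv' hn' heq
    have h1 := big_v hE hrt
    rcases heq with heq | heq
    · rw [heq, hn'] at h8
      norm_num at h8
    · omega
  rcases or_assoc.2 h with hA | ⟨p, r, t, c, a, b, x, y, hE, hn, hv, hkb, hn8, hrt⟩
  · rcases or_assoc.2 h' with hA' | ⟨p', r', t', c', a', b', x', y', hE', hn', hv', hkb', hn8', hrt'⟩
    · obtain ⟨h1, h2, h3⟩ := key hA
      obtain ⟨h1', h2', h3'⟩ := key hA'
      have hvv : v = v' := h1.trans h1'.symm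
      subst hvv
      exact fin_case hk hk' hl (h2.trans h2'.symm) h3 h3'
    · obtain ⟨h1, h2, h3⟩ := key hA
      refine absurd ?_ (fun h : False => h)
      refine big hE' hv' hn8' hrt' h1 h2 ?_
      rcases heq with heq | heq
      · exact Or.inl heq.symm
      · exact Or.inr heq.symm
  · rcases or_assoc.2 h' with hA' | ⟨p', r', t', c', a', b', x', y', hE', hn', hv', hkb', hn8', hrt'⟩
    · obtain ⟨h1', h2', h3'⟩ := key hA'
      exact absurd (big hE hv hn8 hrt h1' h2' heq) (fun h : False => h)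
    · rcases heq with heq | heq
      · rw [hn, hn'] at heq
        have hr0 : 2 * r ≠ 0 := by
          have h1 := hE.t1
          have h2 := hE.tr
          omega
        have hpp : p = p' := pow_prime_inj hE.pr hE'.pr hr0 heq
        subst hpp
        have hrr : r = r' := by
          have h1 := Nat.pow_right_injective hE.pr.two_le heq
          omega
        subst hrr
        obtain ⟨h1, h2, h3, h4⟩ := same_r hE hE'
        subst h1 h2 h3 h4
        have hvv : v = v' := hv.trans hv'.symm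
        subst hvv
        exact fin_case hk hk' hl (hn.trans hn'.symm) hkb hkb'
      · have h1 : 2 ^ c * p ^ (r + t) = 2 ^ c' * p' ^ (r' + t') := by rw [← hv, heq, hv']
        obtain ⟨h2, h3⟩ := two_part hE.pr hE.ne hE'.pr hE'.ne h1
        have hpp : p = p' := pow_prime_inj hE.pr hE'.pr (by omega) h3
        subst hpp
        subst h2
        have hS : r + t = r' + t' := Nat.pow_right_injective hE.pr.two_le h3
        obtain ⟨g1, g2, g3, g4⟩ := same_v hE hE' hS
        subst g1 g2 g3 g4 heq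
        exact fin_case hk hk' hl (hn.trans hn'.symm) hkb hkb'

end Pool.Agent.DSU
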